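import Mathlib

/-!
# The fractional local `t`-dimension of a chain is at least `log_t m`

Lower bound by linear programming duality: give the pair `x < y` of the chain with `M` elements
the weight `1 / (y - x)`.  A monotone partial function into `t` classes then separates pairs of
total weight at most `|dom| log t`, which gives `fldim_t(M) ≥ (log M - 1) / log t`; subadditivity
on chains (`M = m ^ k`, `k → ∞`) removes the error term.
-/

namespace Pool.Agent.Results.MP_c6110c_co.ChainLower

open Finset Real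

/-! ### Definitions -/

/-- Monotone partial functions from `P` to the chain with `t` elements; `none` means undefined. -/
def MPF (P : Type) [PartialOrder P] (t : ℕ) : Type :=
  {f : P → Option (Fin t) // ∀ x y a b, x ≤ y → f x = some a → f y = some b → a ≤ b}

noncomputable instance (P : Type) [PartialOrder P] [Finite P] (t : ℕ) : Fintype (MPF P t) :=
  haveI : Finite (MPF P t) := Subtype.finite
  Fintype.ofFinite _

open Classical in
/-- The total weight of the functions `f` with `x, y` in the domain and `f x < f y`. -/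
noncomputable def cover {P : Type} [PartialOrder P] [Finite P] {t : ℕ} (w : MPF P t → ℝ)
    (x y : P) : ℝ :=
  ∑ f : MPF P t, if ∃ a b, f.1 x = some a ∧ f.1 y = some b ∧ a < b then w f else 0

open Classical in
/-- The total weight of the functions with `x` in the domain. -/
noncomputable def load {P : Type} [PartialOrder P] [Finite P] {t : ℕ} (w : MPF P t → ℝ)
    (x : P) : ℝ :=
  ∑ f : MPF P t, if f.1 x ≠ none then w f else 0

/-- Fractional local `t`-realisers. -/
def IsRealiser {P : Type} [PartialOrder P] [Finite P] {t : ℕ} (w : MPF P t → ℝ) : Prop :=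
  (∀ f, 0 ≤ w f) ∧ ∀ x y : P, ¬ x ≥ y → 1 ≤ cover w x y

/-- The fractional local `t`-dimension. -/
noncomputable def fldim (t : ℕ) (P : Type) [PartialOrder P] [Finite P] : ℝ :=
  sInf {c : ℝ | ∃ w : MPF P t → ℝ, IsRealiser w ∧ c = ⨆ x : P, load w x}

/-! ### The analytic inequalities -/

lemma antitone_sum (h : ℕ → ℝ) (hh : Antitone h) (D : Finset ℕ) :
    ∑ d ∈ D, h d ≤ ∑ i ∈ range D.card, h i := by
  induction hn : D.card generalizing D with
  | zero =>
    rw [Finset.card_eq_zero] at hn
    simp [hn]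
  | succ n ih =>
    have hne : D.Nonempty := by
      rw [← Finset.card_pos]; omega
    have hmem := D.max'_mem hne
    have h1 : n ≤ D.max' hne := by
      have hsub : D ⊆ range (D.max' hne + 1) := by
        intro x hx
        rw [Finset.mem_range]
        have := D.le_max' x hx
        omega
      have := Finset.card_le_card hsub
      rw [Finset.card_range] at this
      omega
    rw [← Finset.add_sum_erase D h hmem, Finset.sum_range_succ, add_comm]
    have h2 := ih (D.erase (D.max' hne)) (by rw [Finset.card_erase_of_mem hmem]; omega)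
    have h3 : h (D.max' hne) ≤ h n := hh h1
    linarith

lemma log_sub_log_ge {u : ℝ} (h0 : 0 ≤ u) (h1 : u < 1) : 2 * u ≤ log (1 + u) - log (1 - u) := by
  have h := hasSum_log_sub_log_of_abs_lt_one (x := u) (by rw [abs_of_nonneg h0]; exact h1)
  have h2 := h.summable.sum_le_tsum (range 1) (fun i _ => by positivity)
  rw [h.tsum_eq] at h2
  simpa using h2

lemma entropy_ge {u : ℝ} (h0 : 0 ≤ u) (h1 : u < 1) :
    u ^ 2 ≤ (1 + u) * log (1 + u) + (1 - u) * log (1 - u) := by
  let h : ℝ → ℝ := fun u => (1 + u) * log (1 + u) + (1 - u) * log (1 - u) - u ^ 2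
  have hd : ∀ v ∈ Set.Ico (0 : ℝ) 1, HasDerivAt h (log (1 + v) - log (1 - v) - 2 * v) v := by
    intro v hv
    have hp : (1 + v) ≠ 0 := by linarith [hv.1]
    have hq : (1 - v) ≠ 0 := by linarith [hv.2]
    have e1 : HasDerivAt (fun v : ℝ => 1 + v) 1 v := by
      simpa using (hasDerivAt_id v).const_add 1
    have e2 : HasDerivAt (fun v : ℝ => 1 - v) (-1) v := by
      simpa using (hasDerivAt_id v).const_sub 1
    have e3 := e1.mul (e1.log hp)
    have e4 := e2.mul (e2.log hq)
    have e5 : HasDerivAt (fun v : ℝ => v ^ 2) (2 * v) v := by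
      simpa using hasDerivAt_pow 2 v
    have e6 := (e3.add e4).sub e5
    refine e6.congr_deriv ?_
    field_simp
    ring
  have hcont : ContinuousOn h (Set.Icc 0 u) := by
    intro v hv
    exact (hd v ⟨hv.1, hv.2.trans_lt h1⟩).continuousAt.continuousWithinAt
  have hmono : MonotoneOn h (Set.Icc 0 u) := by
    apply monotoneOn_of_deriv_nonneg (convex_Icc 0 u) hcont
    · intro v hv
      rw [interior_Icc] at hv
      exact (hd v ⟨hv.1.le, hv.2.trans h1⟩).differentiableAt.differentiableWithinAt
    · intro v hv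
      rw [interior_Icc] at hv
      rw [(hd v ⟨hv.1.le, hv.2.trans h1⟩).deriv]
      have := log_sub_log_ge hv.1.le (hv.2.trans h1)
      linarith
  have h2 := hmono (Set.left_mem_Icc.2 h0) (Set.right_mem_Icc.2 h0) h0
  simp only [h] at h2
  simp at h2
  linarith

/-- `φ(x) = x log x`. -/
noncomputable def phi (n : ℕ) : ℝ := (n : ℝ) * log n

lemma phi_second (x : ℕ) : 1 / ((x : ℝ) + 1) ≤ phi (x + 2) - 2 * phi (x + 1) + phi x := by
  rcases Nat.eq_zero_or_pos x with rfl | hx
  · simp only [phi]
    have := Real.log_two_gt_d9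
    norm_num
    linarith
  · have hx' : (1 : ℝ) ≤ x := by exact_mod_cast hx
    set c : ℝ := (x : ℝ) + 1 with hc
    have hcpos : 0 < c := by linarith
    have hu0 : 0 ≤ 1 / c := by positivity
    have hu1 : 1 / c < 1 := by
      rw [div_lt_one hcpos]; linarith
    have h := entropy_ge hu0 hu1
    have e1 : 1 + 1 / c = ((x : ℝ) + 2) / c := by
      field_simp
      rw [hc]; ring
    have e2 : 1 - 1 / c = (x : ℝ) / c := by
      field_simp
      rw [hc]; ring
    rw [e1, e2, log_div (by linarith) hcpos.ne', log_div (by linarith) hcpos.ne'] at h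
    have h3 : c * (1 / c) ^ 2 ≤ c * ((((x : ℝ) + 2) / c) * (log ((x : ℝ) + 2) - log c) +
        ((x : ℝ) / c) * (log x - log c)) := mul_le_mul_of_nonneg_left h hcpos.le
    have e3 : c * (1 / c) ^ 2 = 1 / c := by field_simp
    have e4 : c * ((((x : ℝ) + 2) / c) * (log ((x : ℝ) + 2) - log c) +
        ((x : ℝ) / c) * (log x - log c)) =
        ((x : ℝ) + 2) * log ((x : ℝ) + 2) - 2 * (c * log c) + x * log x := by
      field_simp
      rw [hc]; ring
    rw [e3, e4] at h3
    simp only [phi]
    push_cast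
    rw [← hc]
    linarith

/-- `∑_{i<a, j<b} 1/(i+j+1) ≤ φ(a+b) - φ(a) - φ(b)`. -/
lemma hilbert_sum (a b : ℕ) :
    ∑ i ∈ range a, ∑ j ∈ range b, 1 / ((i : ℝ) + j + 1) ≤ phi (a + b) - phi a - phi b := by
  have h1 : ∀ (i b : ℕ), ∑ j ∈ range b, 1 / ((i : ℝ) + j + 1) ≤
      (phi (i + 1 + b) - phi (i + b)) - (phi (i + 1) - phi i) := by
    intro i b
    induction b with
    | zero => simp
    | succ b ih =>
      rw [Finset.sum_range_succ]
      have h2 := phi_second (i + b)
      push_cast at h2
      have e1 : i + 1 + (b + 1) = i + b + 2 := by ring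
      have e2 : i + (b + 1) = i + b + 1 := by ring
      have e3 : i + 1 + b = i + b + 1 := by ring
      rw [e1, e2]
      rw [e3] at ih
      linarith
  induction a with
  | zero => simp [phi]
  | succ a ih =>
    rw [Finset.sum_range_succ]
    have h2 := h1 a b
    have h3 : phi 0 = 0 := by simp [phi]
    linarith

/-- Two separated finite sets of naturals. -/
lemma sep_sum (A B : Finset ℕ) (hAB : ∀ x ∈ A, ∀ y ∈ B, x < y) :
    ∑ x ∈ A, ∑ y ∈ B, 1 / ((y : ℝ) - x) ≤ phi (A.card + B.card) - phi A.card - phi B.card := by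
  rcases A.eq_empty_or_nonempty with rfl | hA
  · simp [phi]
  refine le_trans ?_ (hilbert_sum A.card B.card)
  set N := A.max' hA with hN
  have hB : ∀ y ∈ B, N + 1 ≤ y := fun y hy => hAB N (A.max'_mem hA) y hy
  have hA' : ∀ x ∈ A, x ≤ N := fun x hx => A.le_max' x hx
  -- sum over `B` first
  have h1 : ∀ x ∈ A, ∑ y ∈ B, 1 / ((y : ℝ) - x) ≤
      ∑ j ∈ range B.card, 1 / (((N - x : ℕ) : ℝ) + j + 1) := by
    intro x hx
    have hxN := hA' x hx
    have hinj : Set.InjOn (fun y => y - (N + 1)) (B : Set ℕ) := by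
      intro y hy z hz hyz
      have h1 := hB y hy
      have h2 := hB z hz
      have h3 : y - (N + 1) = z - (N + 1) := hyz
      omega
    have h2 : ∑ y ∈ B, 1 / ((y : ℝ) - x) =
        ∑ e ∈ B.image (fun y => y - (N + 1)), 1 / (((N - x : ℕ) : ℝ) + e + 1) := by
      rw [Finset.sum_image hinj]
      refine Finset.sum_congr rfl fun y hy => ?_
      have h3 := hB y hy
      congr 1
      push_cast [Nat.cast_sub hxN, Nat.cast_sub h3]
      ring
    rw [h2]
    have h4 : Antitone fun e : ℕ => 1 / (((N - x : ℕ) : ℝ) + e + 1) := by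
      intro e e' hee
      have : (e : ℝ) ≤ e' := by exact_mod_cast hee
      apply one_div_le_one_div_of_le
      · positivity
      · linarith
    have h5 := antitone_sum _ h4 (B.image (fun y => y - (N + 1)))
    rwa [Finset.card_image_of_injOn hinj] at h5
  refine (Finset.sum_le_sum h1).trans ?_
  have hinj : Set.InjOn (fun x => N - x) (A : Set ℕ) := by
    intro y hy z hz hyz
    have h1 := hA' y hy
    have h2 := hA' z hz
    have h3 : N - y = N - z := hyz
    omega
  have h2 : ∑ x ∈ A, ∑ j ∈ range B.card, 1 / (((N - x : ℕ) : ℝ) + j + 1) =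
      ∑ d ∈ A.image (fun x => N - x), ∑ j ∈ range B.card, 1 / ((d : ℝ) + j + 1) := by
    rw [Finset.sum_image hinj]
  rw [h2]
  have h4 : Antitone fun d : ℕ => ∑ j ∈ range B.card, 1 / ((d : ℝ) + j + 1) := by
    intro d d' hdd
    refine Finset.sum_le_sum fun j _ => ?_
    have : (d : ℝ) ≤ d' := by exact_mod_cast hdd
    apply one_div_le_one_div_of_le
    · positivity
    · linarith
  have h5 := antitone_sum _ h4 (A.image (fun x => N - x))
  rwa [Finset.card_image_of_injOn hinj] at h5

/-- Gibbs' inequality in the form needed for the induction on the number of classes. -/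
lemma gibbs (a b t : ℕ) (ht : 1 ≤ t) :
    (a : ℝ) * log t + (phi (a + b) - phi a - phi b) ≤ ((a + b : ℕ) : ℝ) * log ((t + 1 : ℕ) : ℝ) := by
  have ht' : (1 : ℝ) ≤ t := by exact_mod_cast ht
  have ht1 : (0 : ℝ) < (t : ℝ) + 1 := by linarith
  rcases Nat.eq_zero_or_pos a with rfl | ha
  · simp only [phi]
    push_cast
    have : 0 ≤ log ((t : ℝ) + 1) := log_nonneg (by linarith)
    have hb : (0 : ℝ) ≤ b := by positivity
    simp
    positivity
  rcases Nat.eq_zero_or_pos b with rfl | hb
  · simp only [phi]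
    push_cast
    have h1 : log (t : ℝ) ≤ log ((t : ℝ) + 1) := log_le_log (by linarith) (by linarith)
    have ha' : (0 : ℝ) ≤ a := by positivity
    simp
    nlinarith
  have ha' : (0 : ℝ) < a := by exact_mod_cast ha
  have hb' : (0 : ℝ) < b := by exact_mod_cast hb
  have hs : (0 : ℝ) < (a : ℝ) + b := by linarith
  have h1 : log (t * ((a : ℝ) + b) / (a * ((t : ℝ) + 1))) ≤
      t * ((a : ℝ) + b) / (a * ((t : ℝ) + 1)) - 1 := log_le_sub_one_of_pos (by positivity)
  have h2 : log (((a : ℝ) + b) / (b * ((t : ℝ) + 1))) ≤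
      ((a : ℝ) + b) / (b * ((t : ℝ) + 1)) - 1 := log_le_sub_one_of_pos (by positivity)
  rw [log_div (by positivity) (by positivity), log_mul (by positivity) (by positivity),
    log_mul (by positivity) (by positivity)] at h1
  rw [log_div (by positivity) (by positivity), log_mul (by positivity) (by positivity)] at h2
  have h3 := mul_le_mul_of_nonneg_left h1 ha'.le
  have h4 := mul_le_mul_of_nonneg_left h2 hb'.le
  have e1 : (a : ℝ) * (t * ((a : ℝ) + b) / (a * ((t : ℝ) + 1)) - 1) +
      b * (((a : ℝ) + b) / (b * ((t : ℝ) + 1)) - 1) = 0 := by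
    field_simp
    ring
  simp only [phi]
  push_cast
  linarith

/-- The weight separated by a monotone map on a finite set of naturals. -/
noncomputable def cross (D : Finset ℕ) (g : ℕ → ℕ) : ℝ :=
  ∑ x ∈ D, ∑ y ∈ D, if g x < g y then 1 / ((y : ℝ) - x) else 0

lemma cross_le (t : ℕ) : ∀ (D : Finset ℕ) (g : ℕ → ℕ),
    (∀ x ∈ D, ∀ y ∈ D, x ≤ y → g x ≤ g y) → (∀ x ∈ D, g x < t + 1) →
    cross D g ≤ D.card * log ((t + 1 : ℕ) : ℝ) := by
  induction t with
  | zero =>
    intro D g hmono hlt
    have h : cross D g = 0 := by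
      unfold cross
      refine Finset.sum_eq_zero fun x hx => Finset.sum_eq_zero fun y hy => ?_
      have h1 := hlt x hx
      have h2 := hlt y hy
      rw [if_neg (by omega)]
    rw [h]
    simp
  | succ t ih =>
    intro D g hmono hlt
    set A := D.filter fun x => g x < t + 1 with hA
    set B := D.filter fun x => ¬ g x < t + 1 with hB
    have hBt : ∀ x ∈ B, g x = t + 1 := by
      intro x hx
      rw [hB, Finset.mem_filter] at hx
      have := hlt x hx.1
      omega
    have hAt : ∀ x ∈ A, g x < t + 1 := by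
      intro x hx
      rw [hA, Finset.mem_filter] at hx
      exact hx.2
    have hAD : ∀ x ∈ A, x ∈ D := fun x hx => (Finset.mem_filter.1 hx).1
    have hBD : ∀ x ∈ B, x ∈ D := fun x hx => (Finset.mem_filter.1 hx).1
    have hcard : A.card + B.card = D.card := Finset.card_filter_add_card_filter_not _
    have hsplit : cross D g = cross A g + ∑ x ∈ A, ∑ y ∈ B, 1 / ((y : ℝ) - x) := by
      unfold cross
      rw [← Finset.sum_filter_add_sum_filter_not D (fun x => g x < t + 1)]
      have h1 : ∑ x ∈ B, ∑ y ∈ D, (if g x < g y then 1 / ((y : ℝ) - x) else 0) = 0 := by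
        refine Finset.sum_eq_zero fun x hx => Finset.sum_eq_zero fun y hy => ?_
        have h1 := hBt x hx
        have h2 := hlt y hy
        rw [if_neg (by omega)]
      rw [← hA, ← hB, h1, add_zero, ← Finset.sum_add_distrib]
      refine Finset.sum_congr rfl fun x hx => ?_
      rw [← Finset.sum_filter_add_sum_filter_not D (fun x => g x < t + 1), ← hA, ← hB]
      congr 1
      refine Finset.sum_congr rfl fun y hy => ?_
      have h1 := hAt x hx
      have h2 := hBt y hy
      rw [if_pos (by omega)]
    have hsep : ∀ x ∈ A, ∀ y ∈ B, x < y := by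
      intro x hx y hy
      have h1 := hAt x hx
      have h2 := hBt y hy
      by_contra hxy
      have h3 := hmono y (hBD y hy) x (hAD x hx) (by omega)
      omega
    have h1 := ih A g (fun x hx y hy => hmono x (hAD x hx) y (hAD y hy)) hAt
    have h2 := sep_sum A B hsep
    have h3 := gibbs A.card B.card (t + 1) (by omega)
    rw [hsplit, ← hcard]
    linarith

/-! ### Families -/

/-- `Good t m c`: the chain `{0, ..., m-1}` has a weighted family of monotone partial functions
into `t` classes that separates every pair with weight at least one and has load at most `c`. -/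
def Good (t m : ℕ) (c : ℝ) : Prop :=
  ∃ (ι : Type) (_ : Fintype ι) (D : ι → Finset ℕ) (g : ι → ℕ → ℕ) (w : ι → ℝ),
    (∀ i, 0 ≤ w i) ∧
    (∀ i, ∀ x ∈ D i, ∀ y ∈ D i, x ≤ y → g i x ≤ g i y) ∧
    (∀ i, ∀ x ∈ D i, g i x < t) ∧
    (∀ i, ∀ x ∈ D i, x < m) ∧
    (∀ x y, x < y → y < m → 1 ≤ ∑ i, if x ∈ D i ∧ y ∈ D i ∧ g i x < g i y then w i else 0) ∧
    (∀ x, x < m → ∑ i, (if x ∈ D i then w i else 0) ≤ c)

lemma good_one (t : ℕ) : Good t 1 0 := by
  refine ⟨Empty, inferInstance, fun i => i.elim, fun i => i.elim, fun i => i.elim,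
    fun i => i.elim, fun i => i.elim, fun i => i.elim, fun i => i.elim, ?_, ?_⟩
  · intro x y h1 h2; omega
  · intro x hx; simp

/-- Subadditivity on chains. -/
lemma good_mul {t m n : ℕ} {c d : ℝ} (h1 : Good t m c) (h2 : Good t n d) :
    Good t (m * n) (c + d) := by
  obtain ⟨ι, _, D, g, w, hw, hmono, hlt, hm, hcov, hload⟩ := h1
  obtain ⟨κ, _, E, h, v, hv, kmono, klt, kn, kcov, kload⟩ := h2
  classical
  refine ⟨ι ⊕ (κ × Fin m), inferInstance,
    Sum.elim (fun i => (range (m * n)).filter fun z => z / n ∈ D i)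
      (fun p => (range (m * n)).filter fun z => z / n = p.2.val ∧ z % n ∈ E p.1),
    Sum.elim (fun i z => g i (z / n)) (fun p z => h p.1 (z % n)),
    Sum.elim w (fun p => v p.1), ?_, ?_, ?_, ?_, ?_, ?_⟩
  · rintro (i | p)
    · exact hw i
    · exact hv p.1
  · rintro (i | p) x hx y hy hxy
    · simp only [Sum.elim_inl, Finset.mem_filter, Finset.mem_range] at hx hy ⊢
      exact hmono i _ hx.2 _ hy.2 (Nat.div_le_div_right hxy)
    · simp only [Sum.elim_inr, Finset.mem_filter, Finset.mem_range] at hx hy ⊢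
      refine kmono p.1 _ hx.2.2 _ hy.2.2 ?_
      have e1 := Nat.div_add_mod x n
      have e2 := Nat.div_add_mod y n
      rw [hx.2.1] at e1
      rw [hy.2.1] at e2
      omega
  · rintro (i | p) x hx
    · simp only [Sum.elim_inl, Finset.mem_filter, Finset.mem_range] at hx ⊢
      exact hlt i _ hx.2
    · simp only [Sum.elim_inr, Finset.mem_filter, Finset.mem_range] at hx ⊢
      exact klt p.1 _ hx.2.2
  · rintro (i | p) x hx
    · simp only [Sum.elim_inl, Finset.mem_filter, Finset.mem_range] at hx
      exact hx.1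
    · simp only [Sum.elim_inr, Finset.mem_filter, Finset.mem_range] at hx
      exact hx.1
  · intro x y hxy hy
    have hx : x < m * n := hxy.trans hy
    have hn : 0 < n := by
      rcases Nat.eq_zero_or_pos n with rfl | hn
      · simp at hy
      · exact hn
    have hym : y / n < m := Nat.div_lt_of_lt_mul (by rwa [mul_comm] at hy)
    rw [Fintype.sum_sum_type]
    simp only [Sum.elim_inl, Sum.elim_inr, Finset.mem_filter, Finset.mem_range, hx, hy, true_and]
    rcases (Nat.div_le_div_right hxy.le : x / n ≤ y / n).lt_or_eq with hlt' | heq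
    · have h3 := hcov _ _ hlt' hym
      have h4 : 0 ≤ ∑ p : κ × Fin m, (if (x / n = p.2.val ∧ x % n ∈ E p.1) ∧
          (y / n = p.2.val ∧ y % n ∈ E p.1) ∧ h p.1 (x % n) < h p.1 (y % n) then v p.1 else 0) := by
        refine Finset.sum_nonneg fun p _ => ?_
        split_ifs
        · exact hv _
        · exact le_rfl
      linarith
    · have h5 : x % n < y % n := by
        have e1 := Nat.div_add_mod x n
        have e2 := Nat.div_add_mod y n
        rw [heq] at e1
        omega
      have h3 := kcov _ _ h5 (Nat.mod_lt _ hn)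
      have h4 : 0 ≤ ∑ i, (if x / n ∈ D i ∧ y / n ∈ D i ∧ g i (x / n) < g i (y / n)
          then w i else 0) := by
        refine Finset.sum_nonneg fun p _ => ?_
        split_ifs
        · exact hw _
        · exact le_rfl
      have h6 : ∑ k, (if x % n ∈ E k ∧ y % n ∈ E k ∧ h k (x % n) < h k (y % n) then v k else 0) ≤
          ∑ p : κ × Fin m, (if (x / n = p.2.val ∧ x % n ∈ E p.1) ∧
          (y / n = p.2.val ∧ y % n ∈ E p.1) ∧ h p.1 (x % n) < h p.1 (y % n) then v p.1 else 0) := by
        rw [Fintype.sum_prod_type]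
        refine Finset.sum_le_sum fun k _ => ?_
        have h7 := Finset.single_le_sum (s := (Finset.univ : Finset (Fin m)))
          (f := fun q : Fin m => (if (x / n = q.val ∧ x % n ∈ E k) ∧
          (y / n = q.val ∧ y % n ∈ E k) ∧ h k (x % n) < h k (y % n) then v k else 0))
          (fun q _ => by
            split_ifs
            · exact hv _
            · exact le_rfl) (Finset.mem_univ (⟨y / n, hym⟩ : Fin m))
        refine le_trans (le_of_eq ?_) h7
        simp only [heq, true_and]
      linarith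
  · intro x hx
    have hn : 0 < n := by
      rcases Nat.eq_zero_or_pos n with rfl | hn
      · simp at hx
      · exact hn
    have hxm : x / n < m := Nat.div_lt_of_lt_mul (by rwa [mul_comm] at hx)
    rw [Fintype.sum_sum_type]
    simp only [Sum.elim_inl, Sum.elim_inr, Finset.mem_filter, Finset.mem_range, hx, true_and]
    have h3 := hload _ hxm
    have h4 := kload _ (Nat.mod_lt x hn)
    have h5 : ∑ p : κ × Fin m, (if x / n = p.2.val ∧ x % n ∈ E p.1 then v p.1 else 0) =
        ∑ k, (if x % n ∈ E k then v k else 0) := by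
      rw [Fintype.sum_prod_type]
      refine Finset.sum_congr rfl fun k _ => ?_
      rw [Finset.sum_eq_single (⟨x / n, hxm⟩ : Fin m)]
      · simp
      · intro q _ hq
        rw [if_neg]
        rintro ⟨h, -⟩
        exact hq (Fin.ext h.symm)
      · intro h; exact absurd (Finset.mem_univ _) h
    linarith

lemma good_pow {t m : ℕ} {c : ℝ} (h : Good t m c) (k : ℕ) : Good t (m ^ k) (k * c) := by
  induction k with
  | zero => simpa using good_one t
  | succ k ih =>
    have := good_mul ih h
    rw [pow_succ]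
    push_cast
    rw [add_mul, one_mul]
    exact this

lemma total_ge (M : ℕ) : (M : ℝ) * log M - M ≤
    ∑ y ∈ range M, ∑ x ∈ range M, if x < y then 1 / ((y : ℝ) - x) else 0 := by
  have h0 : ∑ y ∈ range M, ∑ x ∈ range M, (if x < y then 1 / ((y : ℝ) - x) else 0) =
      ∑ y ∈ range M, ∑ x ∈ range y, 1 / ((y : ℝ) - x) := by
    refine Finset.sum_congr rfl fun y hy => ?_
    rw [Finset.mem_range] at hy
    rw [← Finset.sum_filter]
    refine Finset.sum_congr ?_ fun _ _ => rfl
    ext x
    simp only [Finset.mem_filter, Finset.mem_range]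
    omega
  rw [h0]
  have h1 : ∀ y : ℕ, log ((y : ℝ) + 1) ≤ ∑ x ∈ range y, 1 / ((y : ℝ) - x) := by
    intro y
    have h2 := log_add_one_le_harmonic y
    push_cast at h2
    refine h2.trans (le_of_eq ?_)
    rw [harmonic, ← Finset.sum_range_reflect]
    push_cast
    refine Finset.sum_congr rfl fun x hx => ?_
    rw [Finset.mem_range] at hx
    rw [one_div]
    congr 1
    rw [Nat.sub_sub, Nat.cast_sub (by omega)]
    push_cast
    ring
  clear h0
  induction M with
  | zero => simp
  | succ M ih =>
    rw [Finset.sum_range_succ]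
    have h2 := h1 M
    have h3 : ((M + 1 : ℕ) : ℝ) * log ((M + 1 : ℕ) : ℝ) - ((M + 1 : ℕ) : ℝ) ≤
        (M : ℝ) * log M - M + log ((M : ℝ) + 1) := by
      rcases Nat.eq_zero_or_pos M with rfl | hM
      · simp
      · have hM' : (0 : ℝ) < M := by exact_mod_cast hM
        have h4 : log (((M : ℝ) + 1) / M) ≤ ((M : ℝ) + 1) / M - 1 :=
          log_le_sub_one_of_pos (by positivity)
        rw [log_div (by positivity) (by positivity)] at h4
        have h5 := mul_le_mul_of_nonneg_left h4 hM'.le
        have e1 : (M : ℝ) * (((M : ℝ) + 1) / M - 1) = 1 := by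
          field_simp
          ring
        rw [e1] at h5
        push_cast
        linarith
    linarith

lemma cross_eq {M : ℕ} (D : Finset ℕ) (g : ℕ → ℕ) (hD : D ⊆ range M) :
    cross D g = ∑ y ∈ range M, ∑ x ∈ range M,
      if x ∈ D ∧ y ∈ D ∧ g x < g y then 1 / ((y : ℝ) - x) else 0 := by
  rw [Finset.sum_comm]
  unfold cross
  have h1 : ∀ x y : ℕ, (if x ∈ D ∧ y ∈ D ∧ g x < g y then 1 / ((y : ℝ) - x) else 0) =
      if x ∈ D then (if y ∈ D then (if g x < g y then 1 / ((y : ℝ) - x) else 0) else 0) else 0 := by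
    intro x y
    split_ifs <;> first | rfl | (exfalso; tauto)
  simp only [h1]
  have h2 : ∀ x : ℕ, ∑ y ∈ range M, (if x ∈ D then
      (if y ∈ D then (if g x < g y then 1 / ((y : ℝ) - x) else 0) else 0) else 0) =
      if x ∈ D then ∑ y ∈ D, (if g x < g y then 1 / ((y : ℝ) - x) else 0) else 0 := by
    intro x
    by_cases hx : x ∈ D
    · simp only [hx, if_true]
      rw [Finset.sum_ite_mem, Finset.inter_eq_right.2 hD]
    · simp [hx]
  simp only [h2]
  rw [Finset.sum_ite_mem, Finset.inter_eq_right.2 hD]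

lemma good_ge {t M : ℕ} {c : ℝ} (hM : 1 ≤ M) (h : Good (t + 1) M c) :
    log M - 1 ≤ c * log ((t + 1 : ℕ) : ℝ) := by
  obtain ⟨ι, _, D, g, w, hw, hmono, hlt, hm, hcov, hload⟩ := h
  have hM' : (0 : ℝ) < M := by exact_mod_cast hM
  have hlog : 0 ≤ log ((t + 1 : ℕ) : ℝ) := log_natCast_nonneg _
  have hD : ∀ i, D i ⊆ range M := fun i x hx => Finset.mem_range.2 (hm i x hx)
  -- the weight of all pairs
  have h1 : ∑ y ∈ range M, ∑ x ∈ range M, (if x < y then 1 / ((y : ℝ) - x) else 0) ≤
      ∑ y ∈ range M, ∑ x ∈ range M, ∑ i,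
        w i * (if x ∈ D i ∧ y ∈ D i ∧ g i x < g i y then 1 / ((y : ℝ) - x) else 0) := by
    refine Finset.sum_le_sum fun y hy => Finset.sum_le_sum fun x hx => ?_
    rw [Finset.mem_range] at hx hy
    by_cases hxy : x < y
    · rw [if_pos hxy]
      have h2 := hcov x y hxy hy
      have hpos : 0 < (y : ℝ) - x := by
        have : (x : ℝ) < y := by exact_mod_cast hxy
        linarith
      have h3 := mul_le_mul_of_nonneg_right h2 (one_div_pos.2 hpos).le
      rw [one_mul, Finset.sum_mul] at h3
      refine h3.trans (le_of_eq ?_)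
      refine Finset.sum_congr rfl fun i _ => ?_
      split_ifs
      · rfl
      · rw [zero_mul, mul_zero]
    · rw [if_neg hxy]
      refine Finset.sum_nonneg fun i _ => ?_
      rw [if_neg, mul_zero]
      rintro ⟨h1, h2, h3⟩
      have := hmono i y h2 x h1 (by omega)
      omega
  have h2 : ∑ y ∈ range M, ∑ x ∈ range M, ∑ i,
        w i * (if x ∈ D i ∧ y ∈ D i ∧ g i x < g i y then 1 / ((y : ℝ) - x) else 0) =
      ∑ i, w i * cross (D i) (g i) := by
    rw [Finset.sum_congr rfl fun y _ => Finset.sum_comm, Finset.sum_comm]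
    refine Finset.sum_congr rfl fun i _ => ?_
    rw [cross_eq _ _ (hD i), Finset.mul_sum]
    refine Finset.sum_congr rfl fun y _ => ?_
    rw [Finset.mul_sum]
  have h3 : ∑ i, w i * cross (D i) (g i) ≤
      ∑ i, w i * ((D i).card * log ((t + 1 : ℕ) : ℝ)) :=
    Finset.sum_le_sum fun i _ => mul_le_mul_of_nonneg_left
      (cross_le t (D i) (g i) (hmono i) (hlt i)) (hw i)
  have h4 : ∑ i, w i * ((D i).card * log ((t + 1 : ℕ) : ℝ)) =
      (∑ x ∈ range M, ∑ i, if x ∈ D i then w i else 0) * log ((t + 1 : ℕ) : ℝ) := by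
    rw [Finset.sum_comm, Finset.sum_mul]
    refine Finset.sum_congr rfl fun i _ => ?_
    rw [Finset.sum_ite_mem, Finset.inter_eq_right.2 (hD i), Finset.sum_const, nsmul_eq_mul]
    ring
  have h5 : (∑ x ∈ range M, ∑ i, if x ∈ D i then w i else 0) ≤ M * c := by
    refine (Finset.sum_le_sum fun x hx => hload x (Finset.mem_range.1 hx)).trans ?_
    rw [Finset.sum_const, Finset.card_range, nsmul_eq_mul]
  have h6 := total_ge M
  have h7 := mul_le_mul_of_nonneg_right h5 hlog
  have h8 : (M : ℝ) * (log M - 1) ≤ M * (c * log ((t + 1 : ℕ) : ℝ)) := by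
    linarith
  exact le_of_mul_le_mul_left h8 hM'

/-- The exact lower bound for families. -/
lemma good_ge_log {t m : ℕ} {c : ℝ} (hm : 1 ≤ m) (h : Good (t + 1) m c) :
    log m ≤ c * log ((t + 1 : ℕ) : ℝ) := by
  by_contra hlt
  push Not at hlt
  obtain ⟨k, hk⟩ := exists_nat_gt (1 / (log m - c * log ((t + 1 : ℕ) : ℝ)))
  have hpos : 0 < log m - c * log ((t + 1 : ℕ) : ℝ) := by linarith
  rw [div_lt_iff₀ hpos] at hk
  have h2 := good_ge (Nat.one_le_pow k m hm) (good_pow h k)
  push_cast at h2 hk
  rw [log_pow] at h2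
  nlinarith

/-! ### From realisers to families -/

lemma good_of_realiser {t m : ℕ} (w : MPF (Fin m) (t + 1) → ℝ) (hw : IsRealiser w) (c : ℝ)
    (hc : ∀ x, load w x ≤ c) : Good (t + 1) m c := by
  classical
  refine ⟨MPF (Fin m) (t + 1), inferInstance,
    fun f => (range m).filter fun x => ∃ h : x < m, f.1 ⟨x, h⟩ ≠ none,
    fun f x => if h : x < m then ((f.1 ⟨x, h⟩).getD 0).val else 0, w, hw.1, ?_, ?_, ?_, ?_, ?_⟩
  · intro f x hx y hy hxy
    rw [Finset.mem_filter] at hx hy
    obtain ⟨-, hx1, hx2⟩ := hx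
    obtain ⟨-, hy1, hy2⟩ := hy
    obtain ⟨a, ha⟩ := Option.ne_none_iff_exists'.1 hx2
    obtain ⟨b, hb⟩ := Option.ne_none_iff_exists'.1 hy2
    simp only [dif_pos hx1, dif_pos hy1, ha, hb, Option.getD_some]
    exact f.2 ⟨x, hx1⟩ ⟨y, hy1⟩ a b hxy ha hb
  · intro f x hx
    dsimp only
    split_ifs with h
    · exact Fin.isLt _
    · omega
  · intro f x hx
    exact Finset.mem_range.1 (Finset.mem_filter.1 hx).1
  · intro x y hxy hy
    have hx : x < m := hxy.trans hy
    have h1 := hw.2 ⟨x, hx⟩ ⟨y, hy⟩ (by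
      intro h
      have : y ≤ x := h
      omega)
    refine h1.trans (le_of_eq ?_)
    unfold cover
    refine Finset.sum_congr rfl fun f _ => ?_
    simp only [Finset.mem_filter, Finset.mem_range, hx, hy, true_and, dif_pos, exists_true_left]
    congr 1
    apply propext
    constructor
    · rintro ⟨a, b, ha, hb, hab⟩
      refine ⟨by rw [ha]; exact Option.some_ne_none a, by rw [hb]; exact Option.some_ne_none b, ?_⟩
      rw [ha, hb]
      exact hab
    · rintro ⟨ha, hb, hab⟩
      obtain ⟨a, ha⟩ := Option.ne_none_iff_exists'.1 ha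
      obtain ⟨b, hb⟩ := Option.ne_none_iff_exists'.1 hb
      rw [ha, hb] at hab
      exact ⟨a, b, ha, hb, hab⟩
  · intro x hx
    have h1 := hc ⟨x, hx⟩
    refine le_trans (le_of_eq ?_) h1
    unfold load
    refine Finset.sum_congr rfl fun f _ => ?_
    simp only [Finset.mem_filter, Finset.mem_range, hx, true_and, exists_true_left]

lemma exists_realiser (t : ℕ) (ht : 2 ≤ t) (P : Type) [PartialOrder P] [Finite P] :
    ∃ w : MPF P t → ℝ, IsRealiser w := by
  classical
  refine ⟨fun _ => 1, fun _ => zero_le_one, fun x y hxy => ?_⟩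
  let f : MPF P t := ⟨fun z => if z = x then some ⟨0, by omega⟩ else
      if z = y then some ⟨1, by omega⟩ else none, by
    intro u v a b huv hu hv
    dsimp only at hu hv
    by_cases h1 : u = x
    · rw [if_pos h1] at hu
      rw [← Option.some.inj hu]
      exact Fin.mk_le_of_le_val (Nat.zero_le _)
    · rw [if_neg h1] at hu
      by_cases h2 : u = y
      · rw [if_pos h2] at hu
        by_cases h3 : v = x
        · exfalso
          apply hxy
          rw [← h2, ← h3]
          exact huv
        · rw [if_neg h3] at hv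
          by_cases h4 : v = y
          · rw [if_pos h4] at hv
            rw [← Option.some.inj hu, ← Option.some.inj hv]
          · rw [if_neg h4] at hv
            cases hv
      · rw [if_neg h2] at hu
        cases hu⟩
  have hyx : y ≠ x := fun h => hxy (by rw [h])
  unfold cover
  have h1 := Finset.single_le_sum (s := (Finset.univ : Finset (MPF P t)))
    (f := fun f : MPF P t => if ∃ a b, f.1 x = some a ∧ f.1 y = some b ∧ a < b then (1 : ℝ) else 0)
    (fun f _ => by split_ifs <;> norm_num) (Finset.mem_univ f)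
  refine le_trans (le_of_eq ?_) h1
  symm
  rw [if_pos]
  refine ⟨⟨0, by omega⟩, ⟨1, by omega⟩, ?_, ?_, ?_⟩
  · simp [f]
  · simp [f, hyx]
  · exact Fin.mk_lt_mk.2 zero_lt_one

/-- **`fldim_t(m) ≥ log_t m` for all `t ≥ 2` and `m ≥ 1`.**  Here `Fin m` is the chain with `m`
elements. -/
theorem result : ∀ t m : ℕ, 2 ≤ t → 1 ≤ m → Real.logb t m ≤ fldim t (Fin m) := by
  intro t m ht hm
  obtain ⟨s, rfl⟩ : ∃ s, t = s + 1 := ⟨t - 1, by omega⟩
  unfold fldim
  apply le_csInf
  · obtain ⟨w, hw⟩ := exists_realiser (s + 1) ht (Fin m)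
    exact ⟨_, w, hw, rfl⟩
  · rintro c ⟨w, hw, rfl⟩
    have h1 : ∀ x, load w x ≤ ⨆ x : Fin m, load w x := fun x =>
      le_ciSup (Set.finite_range _).bddAbove x
    have h2 := good_ge_log hm (good_of_realiser w hw _ h1)
    have hlog : 0 < log ((s + 1 : ℕ) : ℝ) := log_pos (by exact_mod_cast ht)
    rw [Real.logb, div_le_iff₀ hlog]
    exact h2

end Pool.Agent.Results.MP_c6110c_co.ChainLower
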